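import Pool.Agent.H25.HadMain

set_option autoImplicit false

namespace Pool.Agent.Results.MP_ba6bee_co.Counter
open Pool.Agent.H25.Had

/-- A Hadamard matrix of order `n`: entries `±1` and `H Hᵀ = n I`. -/
def IsHadamard {n : ℕ} (H : Matrix (Fin n) (Fin n) ℤ) : Prop :=
  (∀ i j, H i j = 1 ∨ H i j = -1) ∧ H * H.transpose = (n : ℤ) • (1 : Matrix (Fin n) (Fin n) ℤ)

/-- `C(H, r)`: the maximum over sign vectors `a`, indexed by the rows other than `r` (the units
of `ℤ` are `±1`), of `∑ j, |∑ i ≠ r, H i j * a i|`. -/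
def C {n : ℕ} (H : Matrix (Fin n) (Fin n) ℤ) (r : Fin n) : ℤ :=
  Finset.univ.sup' Finset.univ_nonempty fun a : {i : Fin n // i ≠ r} → ℤˣ =>
    ∑ j : Fin n, |∑ i : {i : Fin n // i ≠ r}, H i j * (a i : ℤ)|

lemma conv {n : ℕ} (r : Fin n) (f : Fin n → ℤ) :
    ∑ i : {i : Fin n // i ≠ r}, f i = ∑ i ∈ Finset.univ.erase r, f i :=
  (Finset.sum_subtype _ (by simp) f).symm

lemma had : IsHadamard H :=
  ⟨fun i j => by simp only [H, sg]; split_ifs <;> simp, HHt⟩

lemma upper : C H 0 ≤ 168 := by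
  refine Finset.sup'_le _ _ fun a _ => ?_
  let a' : Fin 32 → ℤ := fun i => if h : i ≠ 0 then (a ⟨i, h⟩ : ℤ) else 1
  have ha : ∀ i, |a' i| = 1 := fun i => by
    simp only [a']
    split_ifs with h
    · rcases Int.units_eq_one_or (a ⟨i, h⟩) with e | e <;> simp [e]
    · simp
  refine le_trans (le_of_eq ?_) (bound' a' ha)
  refine Finset.sum_congr rfl fun j _ => ?_
  rw [← conv 0 fun i => H i j * a' i]
  refine congrArg _ (Finset.sum_congr rfl fun i _ => ?_)
  simp only [a', dif_pos i.2]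

lemma lower : 170 ≤ C H 1 := by
  refine le_trans ?_ (Finset.le_sup' _ (Finset.mem_univ
    fun i : {i : Fin 32 // i ≠ 1} => if Nat.testBit 1093425292 i.1 then (-1 : ℤˣ) else 1))
  have : ∀ j : Fin 32, ∑ i : {i : Fin 32 // i ≠ 1},
      H i j * ((if Nat.testBit 1093425292 i.1 then (-1 : ℤˣ) else 1 : ℤˣ) : ℤ) =
      ∑ i ∈ Finset.univ.erase (1 : Fin 32), H i j * sg 1093425292 i := by
    intro j
    rw [← conv 1 fun i => H i j * sg 1093425292 i]
    refine Finset.sum_congr rfl fun i _ => ?_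
    simp only [sg]; split_ifs <;> simp
  simp only [this]
  decide +kernel

theorem result :
    (∃ H : Matrix (Fin 32) (Fin 32) ℤ, IsHadamard H ∧ ∃ r s, C H r ≤ 168 ∧ 170 ≤ C H s) ∧
    ¬ ∀ d : ℕ, 1 ≤ d → ∀ H : Matrix (Fin (4 * d)) (Fin (4 * d)) ℤ, IsHadamard H →
      ∀ r s, C H r = C H s := by
  refine ⟨⟨H, had, 0, 1, upper, lower⟩, fun h => ?_⟩
  have := h 8 (by norm_num) H had (0 : Fin 32) (1 : Fin 32)
  have h1 := upper
  have h2 := lower
  have h3 : C H 0 = C H 1 := this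
  omega

end Pool.Agent.Results.MP_ba6bee_co.Counter
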